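import Pool.Agent.K4H87.BE.Defs

namespace Pool.K4H46.BE

open Pool.K4H87.BE

def ext (L : List (List (Fin 8))) : List (List (Fin 8)) :=
  L.flatMap fun p => (List.finRange 8).filterMap fun v =>
    if (match p with
      | [] => false
      | a :: _ => adj8 v a && !(p.contains v)) then some (v :: p) else none

def walks : ℕ → List (List (Fin 8))
  | 0 => (List.finRange 8).map fun a => [a]
  | n + 1 => ext (walks n)

theorem mem_walks : ∀ (p : List (Fin 8)) (a : Fin 8), (a :: p).Nodup →
    (a :: p).IsChain G8.Adj → (a :: p) ∈ walks p.length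
  | [], a, _, _ => by
      simp [walks]
  | b :: p, a, hn, hc => by
      have ih := mem_walks p b (List.nodup_cons.mp hn).2 (List.isChain_cons_cons.mp hc).2
      have hab : adj8 a b = true := (List.isChain_cons_cons.mp hc).1
      have hnot := (List.nodup_cons.mp hn).1
      show (a :: b :: p) ∈ ext (walks p.length)
      unfold ext
      rw [List.mem_flatMap]
      refine ⟨b :: p, ih, ?_⟩
      rw [List.mem_filterMap]
      refine ⟨a, List.mem_finRange a, ?_⟩
      have : (adj8 a b && !((b :: p).contains a)) = true := by
        rw [Bool.and_eq_true]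
        refine ⟨hab, ?_⟩
        simpa using hnot
      simp only [this, if_true]

/-- all self-avoiding walks -/
def allW : List (List (Fin 8)) := (List.range 8).flatMap walks

theorem mem_allW {p : List (Fin 8)} (h0 : p ≠ []) (hn : p.Nodup) (hc : p.IsChain G8.Adj) :
    p ∈ allW := by
  match p, h0, hn, hc with
  | a :: p, _, hn, hc =>
    have h1 := mem_walks p a hn hc
    have h2 : (a :: p).length ≤ 8 := by
      have := List.Nodup.length_le_card hn
      simpa using this
    unfold allW
    rw [List.mem_flatMap]
    refine ⟨p.length, ?_, h1⟩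
    rw [List.mem_range]
    simp only [List.length_cons] at h2
    omega

/-- Boolean test: the list `q` is a path from `i` to `j` with vertices in `p`, fewer than `p`. -/
def shorter (p q : List (Fin 8)) : Bool :=
  q.head? == p.head? && q.getLast? == p.getLast? && q.all (fun v => p.contains v)
    && decide (q.length < p.length)

def okB (p : List (Fin 8)) : Bool :=
  decide (p.length ≤ 4) ||
  (match p.head?, p.getLast? with
   | some i, some j => !(decide (i < j)) ||
      p.any (fun v => decide (v ≠ i) && decide (v ≠ j) && decide (i < v) && decide (v < j))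
   | _, _ => true) ||
  allW.any (fun q => shorter p q)

theorem allW_ok : allW.all okB = true := by decide +kernel

theorem allW_valid : allW.all (fun q => decide q.Nodup && decide (q.IsChain (fun a b => adj8 a b = true)))
    = true := by decide +kernel

theorem le_four {i j : Fin 8} {p : List (Fin 8)} (h : IsAdmissible G8 i j p) : p.length ≤ 4 := by
  obtain ⟨hij, ⟨hn, hc, hi, hj⟩, hint, hmin⟩ := h
  have h0 : p ≠ [] := by
    intro h; rw [h] at hi; simp at hi
  have hp := mem_allW h0 hn hc
  have hok := List.all_eq_true.mp allW_ok p hp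
  unfold okB at hok
  rw [hi, hj] at hok
  rw [Bool.or_eq_true, Bool.or_eq_true] at hok
  rcases hok with (h1 | h2) | h3
  · simpa using h1
  · exfalso
    simp only [Bool.or_eq_true, Bool.not_eq_true', decide_eq_false_iff_not, List.any_eq_true,
      Bool.and_eq_true, decide_eq_true_eq] at h2
    rcases h2 with h2 | ⟨v, hv, ⟨⟨h3, h4⟩, h5⟩, h6⟩
    · exact h2 hij
    · rcases hint v hv h3 h4 with h | h
      · exact absurd h (not_lt.mpr h5.le)
      · exact absurd h (not_lt.mpr h6.le)
  · exfalso
    rw [List.any_eq_true] at h3
    obtain ⟨q, hq, hs⟩ := h3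
    have hv := List.all_eq_true.mp allW_valid q hq
    unfold shorter at hs
    simp only [Bool.and_eq_true, beq_iff_eq, List.all_eq_true, decide_eq_true_eq,
      List.contains_iff_mem] at hs hv
    obtain ⟨⟨⟨hq1, hq2⟩, hq3⟩, hq4⟩ := hs
    refine hmin q ⟨hv.1, hv.2, hq1.trans hi, hq2.trans hj⟩ ?_
    rw [Finset.ssubset_iff_subset_ne]
    refine ⟨fun v hv => by
      rw [List.mem_toFinset] at hv ⊢
      exact hq3 v hv, fun he => ?_⟩
    have := congrArg Finset.card he
    rw [List.toFinset_card_of_nodup hv.1, List.toFinset_card_of_nodup hn] at this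
    omega

/-- test used for the admissibility of one path -/
def okC (i j : Fin 8) (p q : List (Fin 8)) : Bool :=
  !(q.head? == some i && q.getLast? == some j) || !decide (q.toFinset ⊂ p.toFinset)

theorem path4 : IsAdmissible G8 0 2 [0, 7, 5, 2] := by
  refine ⟨by decide, ⟨by decide, ?_, rfl, rfl⟩, by decide, ?_⟩
  · show List.IsChain (fun a b => adj8 a b = true) [0, 7, 5, 2]
    decide
  · intro q hq hss
    obtain ⟨hn, hc, hi, hj⟩ := hq
    have h0 : q ≠ [] := by
      intro h; rw [h] at hi; simp at hi
    have hmem := mem_allW h0 hn hc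
    have key : allW.all (okC 0 2 [0, 7, 5, 2]) = true := by decide +kernel
    have := List.all_eq_true.mp key q hmem
    unfold okC at this
    rw [Bool.or_eq_true] at this
    rcases this with h | h
    · simp [hi, hj] at h
    · simp only [Bool.not_eq_true', decide_eq_false_iff_not] at h
      exact h hss

/-- The longest admissible path of the example has 4 vertices. -/
theorem ellLt_G8 : ellLt G8 = 4 := by
  unfold ellLt
  refine IsGreatest.csSup_eq ⟨⟨0, 2, [0, 7, 5, 2], path4, rfl⟩, ?_⟩
  rintro k ⟨i, j, p, h, rfl⟩
  exact le_four h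

end Pool.K4H46.BE
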